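import Pool.Agent.helper32.NN.Fin
import Pool.Agent.helper52.NN.NIL
import Pool.Agent.helper38.NN.PER
import Pool.Agent.helper27.NN.SUM
import Pool.Agent.helper33.NN.PRS
import Pool.Agent.helper3.NN.TWO
import Pool.Agent.helper21.NN.FDI
import Pool.Agent.helper63.NN.COD
import Pool.Agent.helper87.NN.MOD
import Pool.Agent.helper72.NN.STP
import Pool.Agent.helper97.NN.REL
import Pool.Agent.helper6.NN.TKP
import Pool.Agent.helper93.NN.GEN
import Pool.Agent.helper98.NN.FIX
import Pool.Agent.helper31.NN.BAD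
import Pool.Agent.helper8.NN.CHO
import Pool.Agent.helper89.NN.POS
import Pool.Agent.helper19.NN.REA
import Pool.Agent.helper91.NN.COA
import Pool.Agent.helper64.NN.TRA
import Pool.Agent.helper25.NN.TRT
import Pool.Agent.helper67.NN.STR
import Pool.Agent.helper30.NN.GRA

/-! # Project NN: all modules put together -/

set_option autoImplicit false

namespace Pool.Agent.NN

universe u v

theorem all_NIL : NIL_stmt.{u, v} := NIL
theorem all_PER : PER_stmt.{u, v} := PER
theorem all_SUM : SUM_stmt.{u, v} := SUM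
theorem all_PRS : PRS_stmt.{u, v} := PRS all_PER
theorem all_TWO : TWO_stmt.{u, v} := TWO all_SUM all_PRS
theorem all_FDI : FDI_stmt.{u, v} := FDI all_NIL all_SUM all_PRS
theorem all_COD : COD_stmt.{u, v} := COD all_FDI all_SUM
theorem all_MOD : MOD_stmt.{u, v} := MOD all_COD
theorem all_STP : STP_stmt.{u, v} := STP all_MOD
theorem all_REL : REL_stmt.{u, v} := REL all_STP all_PER
theorem all_TKP : TKP_stmt.{u, v} := TKP all_REL all_PER
theorem all_GEN : GEN_stmt.{u, v} := GEN all_TKP all_PRS all_FDI
theorem all_FIX : FIX_stmt.{u, v} := FIX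
theorem all_BAD : BAD_stmt := BAD
theorem all_CHO : CHO_stmt.{u, v} := CHO all_PER all_BAD
theorem all_POS : POS_stmt.{u, v} := POS all_CHO all_TKP all_GEN
theorem all_REA : REA_stmt.{u, v} := REA all_POS all_TWO
theorem all_COA : COA_stmt.{u, v} := COA
theorem all_TRA : TRA_stmt.{u, v} := TRA
theorem all_TRT : TRT_stmt.{u, v} := TRT all_TRA
theorem all_STR : STR_stmt.{u, v} := STR all_TRA all_TRT all_TKP all_GEN
theorem all_GRA : GRA_stmt.{u, v} := GRA all_TRA all_FIX all_COA all_REA

end Pool.Agent.NN
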