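import Pool.Agent.helper32.NN.All

/-!
# Counterexamples have countable dimension
-/

set_option autoImplicit false

universe u v

namespace Pool.Agent.NN

open Cardinal

theorem CNT_closure {A : Type v} [Semigroup A] (X : Set A) (hX : X.Countable) :
    (Subsemigroup.closure X : Set A).Countable := by
  haveI : Countable X := hX.to_subtype
  haveI : Countable (FreeSemigroup X) := by
    have h : Function.Injective (fun w : FreeSemigroup X => (w.head, w.tail)) := by
      rintro ⟨a, l⟩ ⟨b, m⟩ h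
      simp only [Prod.mk.injEq] at h
      rw [h.1, h.2]
    exact h.countable
  let f : FreeSemigroup X →ₙ* A := FreeSemigroup.lift (fun x : X => (x : A))
  have h : Subsemigroup.closure X ≤ f.srange :=
    Subsemigroup.closure_le.2 fun x hx => ⟨FreeSemigroup.of ⟨x, hx⟩, by simp [f]⟩
  exact (Set.countable_range f).mono h

theorem CNT_rank (K : Type u) (A : Type v) [Field K] [NonUnitalRing A] [Module K A]
    [IsScalarTower K A A] [SMulCommClass K A A] (X : Set A) (hX : X.Countable)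
    (h : NonUnitalAlgebra.adjoin K X = ⊤) : Module.rank K A ≤ ℵ₀ := by
  have e := NonUnitalAlgebra.adjoin_eq_span (R := K) X
  rw [h] at e
  have e2 : Submodule.span K (Subsemigroup.closure X : Set A) = ⊤ := by
    rw [← e]
    rfl
  have h2 := rank_span_le (R := K) (Subsemigroup.closure X : Set A)
  rw [e2, rank_top] at h2
  exact h2.trans (Cardinal.le_aleph0_iff_set_countable.2 (CNT_closure X hX))

theorem fin_cnt (hSTR : STR_stmt.{u, v}) (K : Type u) (A : Type v) [Field K] [NonUnitalRing A]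
    [Module K A] [IsScalarTower K A A] [SMulCommClass K A A] (h1 : 1 < Module.rank K A)
    (h2 : PropNil K A) (h3 : ¬ Nilp A) :
    (∀ k : ℕ, IdealOf K A (TS K A k) ∧ TS K A k ≠ ⊤ ∧ (∃ n : ℕ, NilOf K A (TS K A k) n) ∧
      TS K A k ≤ TS K A (k + 1)) ∧
    (∀ a : A, ∃ k : ℕ, a ∈ TS K A k) ∧
    (∀ B : NonUnitalSubalgebra K A, B ≠ ⊤ → ∃ k : ℕ, ∀ b ∈ B, b ∈ TS K A k) ∧
    (∀ X : Set A, NonUnitalAlgebra.adjoin K X = ⊤ ↔ ∀ k : ℕ, ¬ X ⊆ TS K A k) ∧
    (∀ B : NonUnitalSubalgebra K A, B ≠ ⊤ → ∃ B' : NonUnitalSubalgebra K A, B' ≠ ⊤ ∧ B < B') ∧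
    Module.rank K A ≤ ℵ₀ := by
  obtain ⟨a1, a2, a3, a4, a5⟩ := fin_str hSTR K A h1 h2 h3
  refine ⟨a1, a2, a3, a4, a5, ?_⟩
  have hx : ∀ k : ℕ, ∃ x : A, x ∉ TS K A k := by
    intro k
    by_contra hne
    push Not at hne
    exact (a1 k).2.1 ((Submodule.eq_top_iff').2 hne)
  choose x hx using hx
  refine CNT_rank K A (Set.range x) (Set.countable_range x) ((a4 _).2 fun k hk => ?_)
  exact hx k (hk ⟨k, rfl⟩)

end Pool.Agent.NN
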