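import Pool.Agent.helper32.NN.Spec

/-! # Project NN: final forms -/

set_option autoImplicit false

namespace Pool.Agent.NN

universe u v

/-- the structure theorem, with the absence of maximal subalgebras. -/
theorem fin_str (hSTR : STR_stmt.{u, v}) (K : Type u) (A : Type v) [Field K] [NonUnitalRing A]
    [Module K A] [IsScalarTower K A A] [SMulCommClass K A A] (h1 : 1 < Module.rank K A)
    (h2 : PropNil K A) (h3 : ¬ Nilp A) :
    (∀ k : ℕ, IdealOf K A (TS K A k) ∧ TS K A k ≠ ⊤ ∧ (∃ n : ℕ, NilOf K A (TS K A k) n) ∧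
      TS K A k ≤ TS K A (k + 1)) ∧
    (∀ a : A, ∃ k : ℕ, a ∈ TS K A k) ∧
    (∀ B : NonUnitalSubalgebra K A, B ≠ ⊤ → ∃ k : ℕ, ∀ b ∈ B, b ∈ TS K A k) ∧
    (∀ X : Set A, NonUnitalAlgebra.adjoin K X = ⊤ ↔ ∀ k : ℕ, ¬ X ⊆ TS K A k) ∧
    (∀ B : NonUnitalSubalgebra K A, B ≠ ⊤ → ∃ B' : NonUnitalSubalgebra K A, B' ≠ ⊤ ∧ B < B') := by
  obtain ⟨s1, s2, s3, s4⟩ := hSTR K A h1 h2 h3
  refine ⟨s1, s2, s3, s4, fun B hB => ?_⟩
  have hmono : ∀ i j : ℕ, i ≤ j → TS K A i ≤ TS K A j := by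
    intro i j hij
    induction hij with
    | refl => exact le_rfl
    | step _ ih => exact ih.trans (s1 _).2.2.2
  obtain ⟨k, hk⟩ := s3 B hB
  obtain ⟨a, ha⟩ : ∃ a : A, a ∉ TS K A k := by
    by_contra hcon
    push Not at hcon
    exact (s1 k).2.1 (eq_top_iff.2 fun a _ => hcon a)
  obtain ⟨m, hm⟩ := s2 a
  set j := max k m with hj
  have hT := s1 j
  refine ⟨{ TS K A j with
      mul_mem' := fun {x y} _ hy => (hT.1 x y hy).1 }, ?_, ?_⟩
  · intro h
    apply hT.2.1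
    rw [eq_top_iff]
    intro x _
    have : x ∈ (⊤ : NonUnitalSubalgebra K A) := NonUnitalAlgebra.mem_top
    rw [← h] at this
    exact this
  · rw [lt_iff_le_not_ge]
    constructor
    · intro b hb
      exact hmono k j (le_max_left _ _) (hk b hb)
    · intro hle
      exact ha (hk a (hle (show a ∈ TS K A j from hmono m j (le_max_right _ _) hm)))

end Pool.Agent.NN
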