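import Mathlib

/-!
# Project NN (MP_3938c6_al): structure of counterexamples, graded algebras. Module statements.

Module `XX` proves `theorem XX (h1 : AA_stmt) … : XX_stmt` in the file `Pool/Agent/<seat>/NN/XX.lean`, with
`import Pool.Agent.helper32.NN.Spec`, namespace `Pool.Agent.NN`. Any EARLIER statement of this file may be a
hypothesis (the list `uses:` is enough). Auxiliary lemmas prefixed `XX_`. No `sorry`, no double quotes.

Setting: `U` is a unital algebra over a field `K`, `A` a linear subspace of `U` closed under multiplication (a non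
unital algebra inside `U`; in the application `U` is the unitization). Products and powers are those of
`Submodule K U` (an idempotent semiring: `Submodule.mul_le`, `Submodule.mul_sup`, `Submodule.mul_iSup`,
`Submodule.mul_mono`/`mul_le_mul'`; `1 : Submodule K U` is `K·1`). `⊥ * S = ⊥`, `S ^ 0 = 1`.
-/

set_option autoImplicit false

open Submodule

noncomputable section

namespace Pool.Agent.NN

universe u v

/-- a counterexample: all proper subalgebras are nilpotent, `A` is not, `dim > 1`. -/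
structure Cex (K : Type u) (U : Type v) [Field K] [Ring U] [Algebra K U] (A : Submodule K U) : Prop where
  mul : A * A ≤ A
  prop : ∀ B : Submodule K U, B ≤ A → B * B ≤ B → B ≠ A → ∃ n : ℕ, B ^ n = ⊥
  notn : ∀ n : ℕ, A ^ n ≠ ⊥
  rank : 1 < Module.rank K A

/-- `J` is a two-sided ideal of `A`. -/
def IsId {K : Type u} {U : Type v} [Field K] [Ring U] [Algebra K U] (A J : Submodule K U) : Prop :=
  J ≤ A ∧ A * J ≤ J ∧ J * A ≤ J

/-- the sum of all ideals `J` with `J ^ k = 0`. -/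
def TT {K : Type u} {U : Type v} [Field K] [Ring U] [Algebra K U] (A : Submodule K U) (k : ℕ) :
    Submodule K U := sSup {J | IsId A J ∧ J ^ k = ⊥}

/-! ## Part 1: structure -/

/-- **NIL** (medium). uses: nothing.
PROOF. Let `a ∈ A`, `a ≠ 0`, and let `B` be the subalgebra generated by `a²` (span of `a^(2i)`, `i ≥ 1`). If `B ≠ A` then
`B ^ n = ⊥`, so `a^(2n) = 0`. If `B = A` then `a ∈ B`: `a = a² q` where `q` is a polynomial in `a` (commuting with `a`);
`e = a q` satisfies `a e = a`, `e² = a q a q = (a² q) q = a q = e`, `e ≠ 0`; `e ∈ A`: `e = a q ∈ A` because every positive power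
of `a` lies in `A` (and `q = c + …`, `a q ∈ A`). `B' = K e` is closed under multiplication, `e^n = e ≠ 0` so it is not nilpotent,
so `K e = A`, of rank at most one: contradiction with `rank`. -/
def NIL_stmt : Prop := ∀ (K : Type u) (U : Type v) [Field K] [Ring U] [Algebra K U] (A : Submodule K U),
  Cex K U A → ∀ a ∈ A, IsNilpotent a

/-- **PER** (short). uses: nothing.
PROOF. `A * A ≤ A` is closed under multiplication; if `A * A ≠ A` then `(A * A) ^ n = ⊥`, so `A ^ (2n) = ⊥`. -/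
def PER_stmt : Prop := ∀ (K : Type u) (U : Type v) [Field K] [Ring U] [Algebra K U] (A : Submodule K U),
  Cex K U A → A * A = A

/-- **SUM** (medium). The sum of two nilpotent ideals is a nilpotent ideal. uses: nothing.
PROOF. `(I ⊔ J) ^ (m + n)` is the supremum of the products of `m + n` factors `I` or `J`; such a product with at least `m`
factors `I` lies in `I ^ m` (absorb the factors `J` and use that `I ^ i` absorbs `A`), otherwise in `J ^ n`. E.g. by induction on `k`: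
`(I ⊔ J) ^ k ≤ ⨆_{i ≤ k} (I ^ i ⊓ J ^ (k - i))` with the conventions `I ^ 0 := A ⊔ 1`; or: `(I ⊔ J)^m ≤ I ^ m ⊔ J`
(`m ≥ 1`, induction, since `J` is an ideal) `= J`, so `((I ⊔ J) ^ m) ^ n ≤ J ^ n = ⊥`. -/
def SUM_stmt : Prop := ∀ (K : Type u) (U : Type v) [Field K] [Ring U] [Algebra K U] (A I J : Submodule K U),
  A * A ≤ A → IsId A I → IsId A J → (∃ n : ℕ, I ^ n = ⊥) → (∃ n : ℕ, J ^ n = ⊥) →
  IsId A (I ⊔ J) ∧ ∃ n : ℕ, (I ⊔ J) ^ n = ⊥

/-- **PRS** (LONG). Every proper subalgebra generates a nilpotent ideal. uses: PER.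
PROOF. `S ^ m = ⊥` for some `m ≥ 1` (`A ≠ ⊥`, `U` nontrivial by `notn`). (a) `A * S ≠ A`, otherwise
`A = A * S = A * S * S = … = A * S ^ m = ⊥` (`notn 1`). (b) `L = S ⊔ A * S` is closed under multiplication (a left ideal), `L ≤ A`.
If `L = A` then `A = A * A = A * L ≤ A * S` (`A * (A * S) = A * S` by PER), contradicting (a) (`A * S ≤ A`). So `L ^ n = ⊥`, `n ≥ 1`.
(c) `J = L ⊔ L * A`: an ideal of `A` containing `S`. Put `V = 1 ⊔ A` (`V * V = V`, `J = V * S * V`, `L = V * S`). Then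
`J ^ n = (V S V) ^ n = (V S) (V S) ⋯ (V S) V = L ^ n * V = ⊥` (using `V * V = V`). -/
def PRS_stmt : Prop := ∀ (K : Type u) (U : Type v) [Field K] [Ring U] [Algebra K U] (A : Submodule K U),
  Cex K U A → ∀ S : Submodule K U, S ≤ A → S * S ≤ S → S ≠ A →
  ∃ J : Submodule K U, IsId A J ∧ S ≤ J ∧ ∃ n : ℕ, J ^ n = ⊥

/-- **TWO** (short). `A` is not the sum of two proper subalgebras. uses: SUM, PRS. -/
def TWO_stmt : Prop := ∀ (K : Type u) (U : Type v) [Field K] [Ring U] [Algebra K U] (A : Submodule K U),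
  Cex K U A → ∀ S S' : Submodule K U, S ≤ A → S' ≤ A → S * S ≤ S → S' * S' ≤ S' → S ≠ A → S' ≠ A →
  S ⊔ S' ≠ A

/-- **FDI** (medium). Finite dimensional subspaces lie in nilpotent ideals. uses: NIL, SUM, PRS.
PROOF. One element `a`: the subalgebra `S` generated by `a` (span of `a^i`, `i ≥ 1`) is nilpotent since `a` is (NIL), so `S ≠ A`
(`notn`), and PRS applies. A finite dimensional `F` is spanned by finitely many elements: sum the ideals (SUM), induction on a
finite spanning set (`Submodule.FG`). -/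
def FDI_stmt : Prop := ∀ (K : Type u) (U : Type v) [Field K] [Ring U] [Algebra K U] (A : Submodule K U),
  Cex K U A → ∀ F : Submodule K U, F ≤ A → F.FG →
  ∃ J : Submodule K U, IsId A J ∧ F ≤ J ∧ ∃ n : ℕ, J ^ n = ⊥

/-- **COD** (short). No proper ideal of finite codimension. uses: FDI, SUM.
PROOF. `F ≤ I`, `I` a nilpotent ideal (FDI), `A ≤ N ⊔ I`. If `N ≠ A`, `N` is a proper subalgebra, nilpotent, so `A = N ⊔ I` is nilpotent. -/
def COD_stmt : Prop := ∀ (K : Type u) (U : Type v) [Field K] [Ring U] [Algebra K U] (A : Submodule K U),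
  Cex K U A → ∀ N F : Submodule K U, IsId A N → F ≤ A → F.FG → A ≤ N ⊔ F → N = A

/-- **MOD** (medium). No proper right submodule of finite codimension of a full ideal. uses: COD.
PROOF. `N = {a ∈ A : I a ⊆ Z}` is an ideal of `A` (`I (a b) ⊆ Z b ⊆ Z`, `I (b a) ⊆ I a ⊆ Z`). `I / (Z ∩ I)` is spanned by the images of
finitely many `f_j ∈ I` (a finite generating set of `F`, `F ≤ I`); the map `a ↦ (f_j a mod Z)_j` from `A` to a finite power of
the finite dimensional space `I/Z` has kernel `N` (if all `f_j a ∈ Z` then `I a ⊆ Z a + F a ⊆ Z`). So `A/N` is finite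
dimensional and `A ≤ N ⊔ F'` with `F'` finitely generated; COD: `N = A`, so `I = I * A ≤ Z`. -/
def MOD_stmt : Prop := ∀ (K : Type u) (U : Type v) [Field K] [Ring U] [Algebra K U] (A : Submodule K U),
  Cex K U A → ∀ I Z F : Submodule K U, IsId A I → I * A = I → Z ≤ I → Z * A ≤ Z → F ≤ I → F.FG →
  I ≤ Z ⊔ F → Z = I

/-- **STP** (LONG). One step of the construction. uses: MOD.
PROOF. Here `B` is a finitely generated (linear) subspace with `B * B ≤ B ⊔ T`, `λ` kills `B` and `T`. One looks for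
`s_1 ∈ I_1, …, s_n ∈ I_n` one after the other. Invariant after `i` steps: a finitely generated subspace `B_i ≤ A` with
`B ≤ B_i`, `B_i * B_i ≤ B_i ⊔ T`, `λ = 0` on `B_i`, an element `p_i = s_1 ⋯ s_i ∈ B_i` (`p_0` is absent: for `i = 0` the condition
is on `I_1 ⋯ I_n`) with `¬ (p_i) * I_{i+1} * ⋯ * I_n ≤ T`. Step: let `I = I_{i+1}` (full, `I * I ≤ T`), `W = {s ∈ I : λ(s) = 0, λ(b s) = 0, λ(s b) = 0,
λ(b s b') = 0 for all b, b' ∈ B_i}`: finitely many linear conditions (`b, b'` in a finite spanning set), so `I ≤ W ⊔ F` with `F ≤ I`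
finitely generated. `Z = {s ∈ I : p_i s I_{i+2} ⋯ I_n ⊆ T}` is a right submodule (`Z * A ≤ Z` since `A * I_{i+2} ≤ I_{i+2}`; if `i + 1 = n` the condition is
`p_i s ∈ T`, and `T * A ≤ T`). If `W ≤ Z` then `I ≤ Z ⊔ F`, so `Z = I` (MOD), so `p_i I_{i+1} ⋯ I_n ⊆ T`, contradiction. So take
`s ∈ W`, `s ∉ Z`, and `B_{i+1} = B_i ⊔ K s ⊔ B_i s ⊔ s B_i ⊔ B_i s B_i` (finitely generated). Products of two elements of
`B_{i+1}`: words with two letters `s` lie in `A¹ s A¹ s A¹ ⊆ I * I ≤ T`-ideal, so in `T`; words with at most one `s` are in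
`B_{i+1} ⊔ T` because `B_i * B_i ≤ B_i ⊔ T`. `λ` kills `B_{i+1}` by the choice of `W`. Finally `p_n = s_1 ⋯ s_n ∉ T`, and
`p_n ∈ B_n ^ n`. -/
def STP_stmt : Prop := ∀ (K : Type u) (U : Type v) [Field K] [Ring U] [Algebra K U] (A : Submodule K U),
  Cex K U A → ∀ (T : Submodule K U), IsId A T → ∀ (l : U →ₗ[K] K), (∀ t ∈ T, l t = 0) →
  ∀ (n : ℕ) (I : Fin n → Submodule K U), 1 ≤ n → (∀ i, IsId A (I i) ∧ I i * A = I i ∧ I i * I i ≤ T) →
  ¬ (List.ofFn I).prod ≤ T →
  ∀ B : Submodule K U, B ≤ A → B.FG → B * B ≤ B ⊔ T → (∀ b ∈ B, l b = 0) →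
  ∃ B' : Submodule K U, B ≤ B' ∧ B' ≤ A ∧ B'.FG ∧ B' * B' ≤ B' ⊔ T ∧ (∀ b ∈ B', l b = 0) ∧ ¬ B' ^ n ≤ T

/-- **REL** (LONG). `A` is not the sum of the ideals which are square-zero modulo a proper ideal. uses: STP, PER.
PROOF. Suppose the supremum is `A`. For `J` in the set, `J' = A * J * A` is an ideal with `J' * J' ≤ T` and `J' * A = J'` (PER), and the
supremum `Σ` of these is `A * A * A = A`. For every `n ≥ 1`: `A ^ n = A` is not `≤ T`, and `A ^ n` is the supremum of the products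
`J'_1 ⋯ J'_n`, so some product is not `≤ T`: STP applies with these `J'_i`. Choose (`T ≠ A`) a linear functional `λ` on `U` vanishing on
`T` and not on `A` (`Submodule.exists_le_ker_of_notMem` or similar). Build `B_0 = ⊥ ≤ B_1 ≤ B_2 ≤ …` by STP with `B_n ^ n` not
`≤ T`. Let `B = (⨆ B_n) ⊔ T`. It is closed under multiplication (directed union), contained in `A`, `λ = 0` on `B`, so `B ≠ A`, but
`B ^ n ≠ ⊥` for all `n` (`B_n ^ n ≤ B ^ n` is not `≤ T`). Contradiction with `prop`. -/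
def REL_stmt : Prop := ∀ (K : Type u) (U : Type v) [Field K] [Ring U] [Algebra K U] (A : Submodule K U),
  Cex K U A → ∀ T : Submodule K U, IsId A T → T ≠ A → sSup {J | IsId A J ∧ J * J ≤ T} ≠ A

/-- **TKP** (medium). The ideals `TT A k`. uses: REL, PER.
PROOF. Put `T'_0 = ⊥`, `T'_{j+1} = sSup {J | IsId A J ∧ J * J ≤ T'_j}`; each is an ideal (a supremum of ideals) and `≠ A` by REL
(induction; `⊥ ≠ A`). If `J` is an ideal with `J ^ (2^j) = ⊥` then `J ≤ T'_j`: by induction on `i ≤ j`, `J ^ (2^(j-i)) ≤ T'_i`, because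
`J ^ (2^(j-i-1))` is an ideal whose square is `J ^ (2^(j-i)) ≤ T'_i`. With `k ≤ 2^j`, `TT A k ≤ T'_j`, so `TT A k ≠ A` (`TT A k ≤ A`; for
`k = 0`: `J ^ 0 = 1 ≠ ⊥`, so `TT A 0 = sSup ∅ = ⊥`). An ideal `≠ A` is a proper subalgebra, hence nilpotent. Monotone:
`J ^ k = ⊥` implies `J ^ (k+1) = ⊥`. -/
def TKP_stmt : Prop := ∀ (K : Type u) (U : Type v) [Field K] [Ring U] [Algebra K U] (A : Submodule K U),
  Cex K U A → ∀ k : ℕ, IsId A (TT A k) ∧ TT A k ≠ A ∧ (∃ n : ℕ, TT A k ^ n = ⊥) ∧ TT A k ≤ TT A (k + 1)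

/-- **GEN** (medium). Generating sets. uses: TKP, PRS, FDI.
PROOF. Second part: `S` proper, `S ≤ J`, `J ^ k = ⊥` (PRS) so `S ≤ TT A k`. Third part: every `a` lies in a nilpotent ideal (FDI for
`K a`). First part, (→): `X ≤ TT A k` and the subalgebra `TT A k` is proper. (←): if `S` is a proper subalgebra containing `X`, the
second part gives `X ⊆ TT A k`, contradiction. (`generates A` is expressed as: every subalgebra containing `X` is `A`.) -/
def GEN_stmt : Prop := ∀ (K : Type u) (U : Type v) [Field K] [Ring U] [Algebra K U] (A : Submodule K U),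
  Cex K U A →
  (∀ X : Set U, X ⊆ A → ((∀ S : Submodule K U, S ≤ A → S * S ≤ S → X ⊆ S → S = A) ↔ ∀ k : ℕ, ¬ X ⊆ TT A k)) ∧
  (∀ S : Submodule K U, S ≤ A → S * S ≤ S → S ≠ A → ∃ k : ℕ, S ≤ TT A k) ∧
  (∀ a ∈ A, ∃ k : ℕ, a ∈ TT A k)

/-! ## Part 2: graded algebras -/

/-- a grading of `A` by the set `G` with the binary operation `op`. -/
structure Gr (K : Type u) (U : Type v) [Field K] [Ring U] [Algebra K U] (A : Submodule K U)
    (G : Type) (op : G → G → G) (𝒜 : G → Submodule K U) : Prop where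
  ind : iSupIndep 𝒜
  sup : ⨆ g, 𝒜 g = A
  mul : ∀ g h, 𝒜 g * 𝒜 h ≤ 𝒜 (op g h)

/-- **FIX** (LONG). Finite index. uses: nothing (only `prop` of `Cex` is used).
PROOF. `A_H = ⨆_{h ∈ H} 𝒜 h` is closed under multiplication, and `≠ A` (independence: `𝒜 g` is disjoint from
`⨆_{h ≠ g} 𝒜 h ≥ A_H` and `𝒜 g ≠ ⊥`, `g ∉ H`). So `A_H ^ d = ⊥`, `d ≥ 1`. Let `r = [G : H]` and `N = r d`. `A ^ N` is the supremum of the
products `𝒜 g_1 * ⋯ * 𝒜 g_N`. The `N + 1` partial products `p_0 = 1, p_1 = g_1, …, p_N = g_1 ⋯ g_N` lie in `r` left cosets of `H`,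
so some coset contains `d + 1` of them, `i_0 < ⋯ < i_d`; the block `g_{i+1} ⋯ g_j` between two consecutive indices is
`p_i⁻¹ p_j ∈ H`, so `𝒜 g_{i+1} * ⋯ * 𝒜 g_j ≤ 𝒜 (p_i⁻¹ p_j) ≤ A_H`, and the whole product contains `d` consecutive factors `≤ A_H`, so it
is `⊥`. Hence `A ^ N = ⊥`, contradiction. -/
def FIX_stmt : Prop := ∀ (K : Type u) (U : Type v) [Field K] [Ring U] [Algebra K U] (A : Submodule K U),
  Cex K U A → ∀ (G : Type) [Group G] (𝒜 : G → Submodule K U), Gr K U A G (fun g h => g * h) 𝒜 →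
  ∀ H : Subgroup G, H.FiniteIndex → ∀ g : G, 𝒜 g ≠ ⊥ → g ∈ H

/-- **BAD** (medium). Arithmetic of positive reals. uses: nothing.
PROOF. Let `n d + s = δ` with `n ≥ 1`, `s` in the additive submonoid `⟨D⟩` generated by `D`, `d ≥ ε`: `n ≤ δ/ε` and `s ≤ δ`. The set
`⟨D⟩ ∩ [0, δ]` is finite (`D` finite, all elements `≥ m > 0`, so at most `δ/m` summands), so there are finitely many
`(n, s)`, and `d = (δ - s)/n`. -/
def BAD_stmt : Prop := ∀ (D : Finset ℝ) (δ ε : ℝ), (∀ d ∈ D, 0 < d) → 0 < δ → 0 < ε →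
  {d : ℝ | ε ≤ d ∧ ∃ n : ℕ, 1 ≤ n ∧ ∃ s ∈ AddSubmonoid.closure (D : Set ℝ), n * d + s = δ}.Finite

/-- **CHO** (LONG). Choice of a homogeneous element of good degree outside a proper ideal. uses: PER, BAD.
PROOF. `T ≠ A = ⨆ 𝒜 r`, so there are `d > 0` and `x ∈ 𝒜 d`, `x ∉ T`. Let `Bad` be the set of BAD (without the condition `ε ≤ d`),
`N₀ = #(Bad ∩ [d/2, ∞))`, `m = 2 N₀ + 2`. By PER `x ∈ A = A ^ m = ⨆ 𝒜 r_1 * ⋯ * 𝒜 r_m`, and looking at the component of degree `d`
(independence of the grading; `𝒜 r_1 * ⋯ * 𝒜 r_m ≤ 𝒜 (r_1 + ⋯ + r_m)`), `x` lies in the supremum of the products with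
`r_1 + ⋯ + r_m = d`; so there are homogeneous `y_i ∈ 𝒜 r_i`, `∑ r_i = d`, `y_1 ⋯ y_m ∉ T`; all `r_i > 0` (`y_i ≠ 0`). `T` is an ideal,
so `y_1 ⋯ y_j ∉ T` and `y_{j+1} ⋯ y_m ∉ T`, of degrees `s_j = r_1 + ⋯ + r_j` and `d - s_j`. If one of these degrees is not in
`Bad`, we are done. Otherwise, for the `m - 1 = 2 N₀ + 1` indices `1 ≤ j ≤ m - 1`, either `s_j ≥ d/2` (at most `N₀` indices, the `s_j`
are distinct elements of `Bad ∩ [d/2, ∞)`) or `d - s_j ≥ d/2` (at most `N₀` indices): contradiction. -/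
def CHO_stmt : Prop := ∀ (K : Type u) (U : Type v) [Field K] [Ring U] [Algebra K U] (A : Submodule K U),
  Cex K U A → ∀ 𝒜 : ℝ → Submodule K U, Gr K U A ℝ (fun r s => r + s) 𝒜 → (∀ r, 𝒜 r ≠ ⊥ → 0 < r) →
  ∀ T : Submodule K U, IsId A T → T ≠ A → ∀ (D : Finset ℝ) (δ : ℝ), (∀ d ∈ D, 0 < d) → 0 < δ →
  ∃ d : ℝ, 0 < d ∧ (∃ x ∈ 𝒜 d, x ∉ T) ∧
    ¬ ∃ n : ℕ, 1 ≤ n ∧ ∃ s ∈ AddSubmonoid.closure (D : Set ℝ), n * d + s = δ

/-- **POS** (medium). No grading by positive reals. uses: CHO, TKP, GEN.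
PROOF. `A ≠ ⊥`, so there are `δ > 0` and `v ∈ 𝒜 δ`, `v ≠ 0`. Choose `d_0, d_1, …` and `x_k ∈ 𝒜 d_k`, `x_k ∉ TT A k`, recursively by CHO
(`T = TT A k`, `D = {d_0, …, d_{k-1}}`), so that by induction `δ` is not in the additive submonoid generated by
`d_0, …, d_k`. Let `M` be the submonoid generated by all `d_k`, `δ ∉ M` (directed union) and `S = ⨆_{r ∈ M} 𝒜 r`: closed under
multiplication, contains all `x_k`, and `v ∉ S` (independence), so `S ≠ A`. But by GEN (first part, `X = {x_k}`) every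
subalgebra containing `X` is `A`. Contradiction. -/
def POS_stmt : Prop := ∀ (K : Type u) (U : Type v) [Field K] [Ring U] [Algebra K U] (A : Submodule K U),
  Cex K U A → ∀ 𝒜 : ℝ → Submodule K U, Gr K U A ℝ (fun r s => r + s) 𝒜 → (∀ r, 𝒜 r ≠ ⊥ → 0 < r) → False

/-- **REA** (medium). Real gradings are trivial. uses: POS, TWO.
PROOF. `A_≥ = ⨆_{r ≥ 0} 𝒜 r` and `A_< = ⨆_{r < 0} 𝒜 r` are subalgebras with supremum `A`; by TWO one of them is `A`. If `A_< = A` then
`𝒜 r = ⊥` for `r ≥ 0` (independence) and `r ↦ 𝒜 (-r)` is a grading by positive reals: POS. If `A_≥ = A`: `𝒜 r = ⊥` for `r < 0`;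
`𝒜 0` and `A_> = ⨆_{r > 0} 𝒜 r` are subalgebras with supremum `A`: either `A_> = A`, contradiction by POS, or
`𝒜 0 = A`, so `𝒜 r = ⊥` for all `r ≠ 0`. -/
def REA_stmt : Prop := ∀ (K : Type u) (U : Type v) [Field K] [Ring U] [Algebra K U] (A : Submodule K U),
  Cex K U A → ∀ 𝒜 : ℝ → Submodule K U, Gr K U A ℝ (fun r s => r + s) 𝒜 → ∀ r : ℝ, 𝒜 r ≠ ⊥ → r = 0

/-- **COA** (medium). Coarsening. uses: nothing.
PROOF. `ℬ r = ⨆_{g : φ g = r} 𝒜 g`. Independence of the coarsening: e.g. `iSupIndep` via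
`iSupIndep_iff_dfinsupp…`, or Mathlib `iSupIndep.iSup…`/`Finset` arguments: two suprema over disjoint sets of indices of
an independent family are disjoint (`iSupIndep.disjoint_biSup`). -/
def COA_stmt : Prop := ∀ (K : Type u) (U : Type v) [Field K] [Ring U] [Algebra K U] (A : Submodule K U)
  (G : Type) [Group G] (𝒜 : G → Submodule K U), Gr K U A G (fun g h => g * h) 𝒜 →
  ∀ φ : G →* Multiplicative ℝ,
  Gr K U A ℝ (fun r s => r + s) (fun r => ⨆ g, ⨆ (_ : Multiplicative.toAdd (φ g) = r), 𝒜 g)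

/-! ## Part 3: transfer to non-unital algebras -/

section
variable (K : Type u) [Field K] (A : Type v) [NonUnitalRing A] [Module K A] [IsScalarTower K A A]
  [SMulCommClass K A A]

/-- all proper subalgebras are nilpotent (form of the problem). -/
def PropNil : Prop := ∀ B : NonUnitalSubalgebra K A, B ≠ ⊤ →
  ∃ n : ℕ, ∀ a ∈ B, ∀ l : List A, (∀ x ∈ l, x ∈ B) → l.length = n → l.foldl (fun x y => x * y) a = 0

/-- the algebra is nilpotent (form of the problem). -/
def Nilp (A : Type v) [NonUnitalRing A] : Prop :=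
  ∃ n : ℕ, ∀ a : A, ∀ l : List A, l.length = n → l.foldl (fun x y => x * y) a = 0

/-- the linear subspace `J` of `A` is a two-sided ideal. -/
def IdealOf (J : Submodule K A) : Prop := ∀ a : A, ∀ x ∈ J, a * x ∈ J ∧ x * a ∈ J

/-- all products of `k + 1` elements of `J` vanish. -/
def NilOf (J : Submodule K A) (k : ℕ) : Prop :=
  ∀ a ∈ J, ∀ l : List A, (∀ x ∈ l, x ∈ J) → l.length = k → l.foldl (fun x y => x * y) a = 0

/-- the sum of all two-sided ideals `J` in which all products of `k + 1` elements vanish. -/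
def TS (k : ℕ) : Submodule K A := sSup {J | IdealOf K A J ∧ NilOf K A J k}

/-- the copy of a subspace of `A` in the unitization. -/
def im (J : Submodule K A) : Submodule K (Unitization K A) :=
  J.map (Unitization.inrHom K K A)

end

/-- **TRA** (LONG). Transfer. uses: nothing.
PROOF. `inr : A → Unitization K A` is injective, linear and multiplicative; `im ⊤` is its range. `im J * im J ≤ im J` iff `J` is closed under
multiplication; subspaces `B ≤ im ⊤` are the `im J`, `J = B.comap inr`. `(im J) ^ (k+1) = ⊥` iff all products of `k+1` elements of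
`J` vanish (`Submodule.pow_eq_span_pow_set` or induction: `(im J)^(k+1)` is spanned by the products; the product of a list
`a :: l` is `l.foldl (· * ·) a` under `inr`). `Module.rank` of `im ⊤` equals that of `A`. -/
def TRA_stmt : Prop := ∀ (K : Type u) (A : Type v) [Field K] [NonUnitalRing A] [Module K A] [IsScalarTower K A A]
  [SMulCommClass K A A],
  (1 < Module.rank K A → PropNil K A → ¬ Nilp A → Cex K (Unitization K A) (im K A ⊤)) ∧
  (∀ J : Submodule K A, IsId (im K A ⊤) (im K A J) ↔ IdealOf K A J) ∧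
  (∀ (J : Submodule K A) (k : ℕ), (im K A J) ^ (k + 1) = ⊥ ↔ NilOf K A J k) ∧
  (∀ S : Submodule K (Unitization K A), S ≤ im K A ⊤ → ∃ J : Submodule K A, im K A J = S) ∧
  (∀ J J' : Submodule K A, im K A J ≤ im K A J' ↔ J ≤ J') ∧
  (∀ J : Submodule K A, im K A J * im K A J ≤ im K A J ↔ ∀ x ∈ J, ∀ y ∈ J, x * y ∈ J)

/-- **TRT** (medium). uses: TRA.
PROOF. `im` is an order isomorphism of the subspaces of `A` onto those `≤ im ⊤`, so it commutes with suprema
(`Submodule.map_iSup`/`map_sSup`); the ideals with `J ^ (k+1) = ⊥` correspond. -/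
def TRT_stmt : Prop := ∀ (K : Type u) (A : Type v) [Field K] [NonUnitalRing A] [Module K A] [IsScalarTower K A A]
  [SMulCommClass K A A], ∀ k : ℕ, TT (im K A ⊤) (k + 1) = im K A (TS K A k)

/-- **STR** (medium). The structure theorem. uses: TRA, TRT, TKP, GEN, NIL, PER.
PROOF. Translate TKP and GEN (with `k + 1`; `TT A 0 ≤ TT A 1`). `NonUnitalAlgebra.adjoin K X = ⊤` iff every subalgebra
containing `X` is everything. -/
def STR_stmt : Prop := ∀ (K : Type u) (A : Type v) [Field K] [NonUnitalRing A] [Module K A] [IsScalarTower K A A]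
  [SMulCommClass K A A], 1 < Module.rank K A → PropNil K A → ¬ Nilp A →
  (∀ k : ℕ, IdealOf K A (TS K A k) ∧ TS K A k ≠ ⊤ ∧ (∃ n : ℕ, NilOf K A (TS K A k) n) ∧ TS K A k ≤ TS K A (k + 1)) ∧
  (∀ a : A, ∃ k : ℕ, a ∈ TS K A k) ∧
  (∀ B : NonUnitalSubalgebra K A, B ≠ ⊤ → ∃ k : ℕ, ∀ b ∈ B, b ∈ TS K A k) ∧
  (∀ X : Set A, NonUnitalAlgebra.adjoin K X = ⊤ ↔ ∀ k : ℕ, ¬ X ⊆ TS K A k)

/-- **GRA** (medium). The theorem on graded algebras. uses: TRA, FIX, COA, REA.
PROOF. Suppose `¬ Nilp A`: `Cex` for `im ⊤` (TRA). The grading `𝒜` of `A` gives the grading `im (𝒜 g)` of `im ⊤` (`im` is injective, it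
preserves independence: `iSupIndep.map_orderIso`/`Submodule` images under an injective map, and suprema). First alternative: FIX
gives `g ∈ H`, contradiction. Second alternative: COA and REA: `im (𝒜 g) ≤ ℬ (φ g)`, so `ℬ (φ g) ≠ ⊥` and `φ g = 0`. -/
def GRA_stmt : Prop := ∀ (K : Type u) (A : Type v) [Field K] [NonUnitalRing A] [Module K A] [IsScalarTower K A A]
  [SMulCommClass K A A], 1 < Module.rank K A → PropNil K A →
  ∀ (G : Type) [Group G] (𝒜 : G → Submodule K A), iSupIndep 𝒜 → ⨆ g, 𝒜 g = ⊤ →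
  (∀ g h, ∀ a ∈ 𝒜 g, ∀ b ∈ 𝒜 h, a * b ∈ 𝒜 (g * h)) →
  ((∃ H : Subgroup G, H.FiniteIndex ∧ ∃ g : G, g ∉ H ∧ 𝒜 g ≠ ⊥) ∨
    (∃ φ : G →* Multiplicative ℝ, ∃ g : G, φ g ≠ 1 ∧ 𝒜 g ≠ ⊥)) →
  Nilp A

end Pool.Agent.NN
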